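import Mathlib

/-!
# Uniform positive entropy and the topological entropy of open covers
-/

set_option autoImplicit false

open Set Filter Topology

namespace Pool.Agent.X183.Upe

/-- The cover `𝒰 ∨ T⁻¹𝒰 ∨ ⋯ ∨ T^{-(n-1)}𝒰`: its members are the sets
`{x | ∀ i < n, T^i x ∈ c i}` with `c i ∈ 𝒰` for `i < n`. -/
def joinCover {X : Type} (T : X → X) (𝒰 : Set (Set X)) (n : ℕ) : Set (Set X) :=
  {W | ∃ c : ℕ → Set X, (∀ i < n, c i ∈ 𝒰) ∧ W = {x | ∀ i < n, T^[i] x ∈ c i}}

/-- The minimal cardinality of a finite subcover of the cover `𝒲`. -/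
noncomputable def minSubcover {X : Type} (𝒲 : Set (Set X)) : ℕ :=
  sInf {k | ∃ F : Finset (Set X), (∀ W ∈ F, W ∈ 𝒲) ∧ (∀ x, ∃ W ∈ F, x ∈ W) ∧ F.card = k}

/-- `h` is the topological entropy of the cover `𝒰`: the limit of
`(1/n) log N(𝒰 ∨ T⁻¹𝒰 ∨ ⋯ ∨ T^{-(n-1)}𝒰)` exists and equals `h`. -/
def HasCoverEntropy {X : Type} (T : X → X) (𝒰 : Set (Set X)) (h : ℝ) : Prop :=
  Tendsto (fun n : ℕ => Real.log (minSubcover (joinCover T 𝒰 n) : ℝ) / (n : ℝ)) atTop (𝓝 h)

/-- Uniform positive entropy: every cover of `X` by two open sets, none of which is dense, has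
positive topological entropy. -/
def UPE {X : Type} [TopologicalSpace X] (T : X → X) : Prop :=
  ∀ U V : Set X, IsOpen U → IsOpen V → U ∪ V = univ → ¬ Dense U → ¬ Dense V →
    ∃ h : ℝ, 0 < h ∧ HasCoverEntropy T {U, V} h

/-! ### Subadditivity -/

section sub

variable {X : Type} {T : X → X} {U V : Set X}

/-- The canonical finite subcover. -/
theorem exists_cover (hc : U ∪ V = univ) (n : ℕ) :
    ∃ F : Finset (Set X), (∀ W ∈ F, W ∈ joinCover T {U, V} n) ∧ (∀ x, ∃ W ∈ F, x ∈ W) := by
  classical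
  let g : (Fin n → Bool) → Set X := fun s =>
    {x | ∀ i < n, T^[i] x ∈ (if h : i < n then (if s ⟨i, h⟩ then U else V) else U)}
  refine ⟨Finset.univ.image g, ?_, ?_⟩
  · intro W hW
    obtain ⟨s, -, rfl⟩ := Finset.mem_image.1 hW
    refine ⟨fun i => (if h : i < n then (if s ⟨i, h⟩ then U else V) else U), ?_, rfl⟩
    intro i hi
    simp only [hi, dif_pos]
    by_cases h : s ⟨i, hi⟩ <;> simp [h]
  · intro x
    refine ⟨g (fun i => decide (T^[i] x ∈ U)), Finset.mem_image_of_mem _ (Finset.mem_univ _), ?_⟩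
    intro i hi
    simp only [hi, dif_pos]
    by_cases h : T^[i] x ∈ U
    · simp [h]
    · have : T^[i] x ∈ U ∪ V := by rw [hc]; trivial
      rcases this with h' | h'
      · exact absurd h' h
      · simp [h, h']

theorem minSubcover_spec (hc : U ∪ V = univ) (n : ℕ) :
    ∃ F : Finset (Set X), (∀ W ∈ F, W ∈ joinCover T {U, V} n) ∧ (∀ x, ∃ W ∈ F, x ∈ W) ∧
      F.card = minSubcover (joinCover T {U, V} n) := by
  have hne : {k | ∃ F : Finset (Set X), (∀ W ∈ F, W ∈ joinCover T {U, V} n) ∧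
      (∀ x, ∃ W ∈ F, x ∈ W) ∧ F.card = k}.Nonempty := by
    obtain ⟨F, h1, h2⟩ := exists_cover (T := T) hc n
    exact ⟨F.card, F, h1, h2, rfl⟩
  exact Nat.sInf_mem hne

theorem minSubcover_le {𝒲 : Set (Set X)} {F : Finset (Set X)} (h1 : ∀ W ∈ F, W ∈ 𝒲)
    (h2 : ∀ x, ∃ W ∈ F, x ∈ W) : minSubcover 𝒲 ≤ F.card :=
  Nat.sInf_le ⟨F, h1, h2, rfl⟩

theorem minSubcover_pos [Nonempty X] (hc : U ∪ V = univ) (n : ℕ) :
    0 < minSubcover (joinCover T {U, V} n) := by
  obtain ⟨F, -, h2, h3⟩ := minSubcover_spec (T := T) hc n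
  rw [← h3, Finset.card_pos]
  obtain ⟨x⟩ := ‹Nonempty X›
  obtain ⟨W, hW, -⟩ := h2 x
  exact ⟨W, hW⟩

theorem minSubcover_add (hc : U ∪ V = univ) (m n : ℕ) :
    minSubcover (joinCover T {U, V} (m + n)) ≤
      minSubcover (joinCover T {U, V} m) * minSubcover (joinCover T {U, V} n) := by
  classical
  obtain ⟨F, hF1, hF2, hF3⟩ := minSubcover_spec (T := T) hc m
  obtain ⟨G, hG1, hG2, hG3⟩ := minSubcover_spec (T := T) hc n
  rw [← hF3, ← hG3, ← Finset.card_product]
  refine le_trans (minSubcover_le (F := (F ×ˢ G).image fun p => p.1 ∩ (T^[m]) ⁻¹' p.2) ?_ ?_)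
    Finset.card_image_le
  · intro W hW
    obtain ⟨⟨A, B⟩, hAB, rfl⟩ := Finset.mem_image.1 hW
    obtain ⟨hA, hB⟩ := Finset.mem_product.1 hAB
    obtain ⟨c, hc1, hc2⟩ := hF1 A hA
    obtain ⟨d, hd1, hd2⟩ := hG1 B hB
    refine ⟨fun i => if i < m then c i else d (i - m), ?_, ?_⟩
    · intro i hi
      by_cases h : i < m
      · simp only [h, if_true]; exact hc1 i h
      · simp only [h, if_false]; exact hd1 _ (by omega)
    · ext x
      simp only [hc2, hd2, mem_inter_iff, mem_preimage]
      constructor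
      · rintro ⟨h1, h2⟩ i hi
        by_cases h : i < m
        · simp only [h, if_true]; exact h1 i h
        · simp only [h, if_false]
          have := h2 (i - m) (by omega)
          rw [← Function.iterate_add_apply] at this
          rwa [show i - m + m = i by omega] at this
      · intro h
        refine ⟨fun i hi => ?_, fun i hi => ?_⟩
        · have := h i (by omega)
          simpa only [hi, if_true] using this
        · have := h (i + m) (by omega)
          rw [if_neg (by omega), Function.iterate_add_apply] at this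
          simpa using this
  · intro x
    obtain ⟨A, hA, hxA⟩ := hF2 x
    obtain ⟨B, hB, hxB⟩ := hG2 (T^[m] x)
    exact ⟨A ∩ (T^[m]) ⁻¹' B, Finset.mem_image.2 ⟨(A, B), Finset.mem_product.2 ⟨hA, hB⟩, rfl⟩,
      hxA, hxB⟩

/-- The limit exists, and is positive as soon as the numbers grow exponentially along multiples
of some `L`. -/
theorem exists_entropy [Nonempty X] (hc : U ∪ V = univ) {L : ℕ} (hL : 0 < L)
    (hexp : ∀ m : ℕ, 2 ^ m ≤ minSubcover (joinCover T {U, V} (L * m))) :
    ∃ h : ℝ, 0 < h ∧ HasCoverEntropy T {U, V} h := by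
  have hsub : Subadditive (fun n : ℕ => Real.log (minSubcover (joinCover T {U, V} n) : ℝ)) := by
    intro m n
    have h1 := minSubcover_add (T := T) hc m n
    have hm := minSubcover_pos (T := T) hc m
    have hn := minSubcover_pos (T := T) hc n
    have hmn := minSubcover_pos (T := T) hc (m + n)
    rw [← Real.log_mul (by positivity) (by positivity)]
    refine Real.log_le_log (by positivity) ?_
    exact_mod_cast h1
  have hbdd : BddBelow (range fun n : ℕ =>
      Real.log (minSubcover (joinCover T {U, V} n) : ℝ) / (n : ℝ)) := by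
    refine ⟨0, ?_⟩
    rintro _ ⟨n, rfl⟩
    exact div_nonneg (Real.log_natCast_nonneg _) (Nat.cast_nonneg _)
  have hlim := hsub.tendsto_lim hbdd
  refine ⟨hsub.lim, ?_, hlim⟩
  have hsubseq : Tendsto (fun m : ℕ => L * (m + 1)) atTop atTop := by
    refine tendsto_atTop_mono (fun m => ?_) tendsto_id
    simp only [id]
    nlinarith
  have h2 := hlim.comp hsubseq
  have h3 : Real.log 2 / L ≤ hsub.lim := by
    refine ge_of_tendsto' h2 (fun m => ?_)
    simp only [Function.comp]
    have hLr : (0 : ℝ) < L := by exact_mod_cast hL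
    rw [div_le_div_iff₀ hLr (by push_cast; positivity)]
    have h4 : ((m : ℝ) + 1) * Real.log 2 ≤
        Real.log (minSubcover (joinCover T {U, V} (L * (m + 1))) : ℝ) := by
      have h5 := hexp (m + 1)
      have h6 : Real.log ((2 : ℝ) ^ (m + 1)) ≤
          Real.log (minSubcover (joinCover T {U, V} (L * (m + 1))) : ℝ) := by
        refine Real.log_le_log (by positivity) ?_
        exact_mod_cast h5
      rwa [Real.log_pow, Nat.cast_add, Nat.cast_one] at h6
    push_cast
    nlinarith [Real.log_pos (show (1 : ℝ) < 2 by norm_num)]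
  have : 0 < Real.log 2 / L := div_pos (Real.log_pos (by norm_num)) (by exact_mod_cast hL)
  linarith

end sub

end Pool.Agent.X183.Upe
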