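import Pool.Agent.X183.Upe.Sub

/-!
# The subshift has uniform positive entropy, and no ergodic measure of full support
-/

set_option autoImplicit false

open Set Filter Topology MeasureTheory

namespace Pool.Agent.X183.Upe

theorem exists_radius {O : Set Sys} (hO : IsOpen O) {x : Sys} (hx : x ∈ O) :
    ∃ N : ℕ, ∀ y : Sys, (∀ i : ℤ, -(N : ℤ) ≤ i → i ≤ N → y.1 i = x.1 i) → y ∈ O := by
  obtain ⟨O', hO', rfl⟩ := isOpen_induced_iff.1 hO
  obtain ⟨I, u, hu, hIu⟩ := isOpen_pi_iff.1 hO' x.1 hx
  refine ⟨I.sup Int.natAbs, fun y hy => hIu ?_⟩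
  intro i hi
  have hi' : i.natAbs ≤ I.sup Int.natAbs := Finset.le_sup (f := Int.natAbs) hi
  rw [hy i (by omega) (by omega)]
  exact (hu i hi).2

instance : Nonempty Sys := ⟨⟨fun _ => 0, fun n p R h => absurd h.1 (by simp)⟩⟩

theorem upe : UPE (shift : Sys → Sys) := by
  intro U V hU hV hUV hnU hnV
  obtain ⟨x, hx⟩ : ∃ x, x ∈ (closure U)ᶜ := by
    by_contra hcon
    push Not at hcon
    exact hnU fun x => by simpa using hcon x
  obtain ⟨y, hy⟩ : ∃ y, y ∈ (closure V)ᶜ := by
    by_contra hcon
    push Not at hcon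
    exact hnV fun x => by simpa using hcon x
  obtain ⟨N1, hN1⟩ := exists_radius isClosed_closure.isOpen_compl hx
  obtain ⟨N2, hN2⟩ := exists_radius isClosed_closure.isOpen_compl hy
  obtain ⟨N, hN⟩ : ∃ N, N = max N1 N2 := ⟨_, rfl⟩
  obtain ⟨L, hL⟩ : ∃ L, L = 100 * (N + 1) ^ 2 := ⟨_, rfl⟩
  have hLpos : 0 < L := by rw [hL]; positivity
  have hNL : 2 * N < L := by rw [hL]; nlinarith
  refine exists_entropy hUV hLpos (fun m => ?_)
  obtain ⟨F, hF1, hF2, hF3⟩ := minSubcover_spec (T := (shift : Sys → Sys)) hUV (L * m)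
  rw [← hF3]
  classical
  -- the points
  let w : (Fin m → Bool) → ℤ → ℤ → Fin 4 := fun s k =>
    if (if h : k.toNat < m then s ⟨k.toNat, h⟩ else true) then x.1 else y.1
  have hw : ∀ s k, Good (w s k) := by
    intro s k
    by_cases h : (if h : k.toNat < m then s ⟨k.toNat, h⟩ else true) = true
    · simp only [w, h, if_true]; exact x.2
    · simp only [w, h]; exact y.2
  let z : (Fin m → Bool) → Sys := fun s => ⟨concat (w s) N L, good_concat (hw s) hL.ge⟩
  choose W hWF hzW using fun s => hF2 (z s)
  have hz : ∀ (s : Fin m → Bool) (k : Fin m) (i : ℤ), -(N : ℤ) ≤ i → i ≤ N →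
      ((shift : Sys → Sys)^[L * k] (z s)).1 i = (if s k then x.1 else y.1) i := by
    intro s k i hi1 hi2
    rw [iterate_shift]
    have h1 := concat_block (w s) (N := N) (L := L) (by exact_mod_cast hNL) (k : ℕ) i ⟨hi1, hi2⟩
    change concat (w s) N L (i + ((L * k : ℕ) : ℤ)) = _
    rw [Nat.cast_mul L k, h1]
    simp only [w, Int.toNat_natCast, k.2, dif_pos]
  have hU' : ∀ (s : Fin m → Bool) (k : Fin m), s k = true →
      (shift : Sys → Sys)^[L * k] (z s) ∉ U := by
    intro s k hs hcon
    have h1 := hN1 ((shift : Sys → Sys)^[L * k] (z s)) (fun i hi1 hi2 => by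
      rw [hz s k i (by omega) (by omega), hs]; rfl)
    exact h1 (subset_closure hcon)
  have hV' : ∀ (s : Fin m → Bool) (k : Fin m), s k = false →
      (shift : Sys → Sys)^[L * k] (z s) ∉ V := by
    intro s k hs hcon
    have h1 := hN2 ((shift : Sys → Sys)^[L * k] (z s)) (fun i hi1 hi2 => by
      rw [hz s k i (by omega) (by omega), hs]; rfl)
    exact h1 (subset_closure hcon)
  have hinj : Function.Injective W := by
    intro s t hst
    by_contra hne
    obtain ⟨k, hk⟩ := Function.ne_iff.1 hne
    obtain ⟨c, hc1, hc2⟩ := hF1 (W s) (hWF s)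
    have hlt : L * (k : ℕ) < L * m := Nat.mul_lt_mul_of_pos_left k.2 hLpos
    have hzs : (shift : Sys → Sys)^[L * k] (z s) ∈ c (L * k) := by
      have := hzW s
      rw [hc2] at this
      exact this _ hlt
    have hzt : (shift : Sys → Sys)^[L * k] (z t) ∈ c (L * k) := by
      have := hzW t
      rw [← hst, hc2] at this
      exact this _ hlt
    have hmem := hc1 _ hlt
    simp only [mem_insert_iff, mem_singleton_iff] at hmem
    cases hsk : s k with
    | true =>
      have htk : t k = false := by
        cases h : t k with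
        | true => exact absurd (hsk.trans h.symm) hk
        | false => rfl
      rcases hmem with h | h
      · rw [h] at hzs; exact hU' s k hsk hzs
      · rw [h] at hzt; exact hV' t k htk hzt
    | false =>
      have htk : t k = true := by
        cases h : t k with
        | true => rfl
        | false => exact absurd (hsk.trans h.symm) hk
      rcases hmem with h | h
      · rw [h] at hzt; exact hU' t k htk hzt
      · rw [h] at hzs; exact hV' s k hsk hzs
  have hcard : (Finset.univ : Finset (Fin m → Bool)).card ≤ F.card :=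
    Finset.card_le_card_of_injOn W (fun s _ => hWF s) hinj.injOn
  simpa using hcard

/-! ### Ergodic measures -/

/-- The points in which `3 2^n 3` occurs. -/
def Has (n : ℕ) : Set Sys := {x | ∃ p : ℤ, Occ x.1 n p}

theorem isOpen_has (n : ℕ) : IsOpen (Has n) := by
  have h : Has n = ⋃ p : ℤ, {x : Sys | Occ x.1 n p} := by
    ext x; simp [Has]
  rw [h]
  exact isOpen_iUnion fun p => (isOpen_occ n p).preimage continuous_subtype_val

theorem has_nonempty (n : ℕ) : (Has n).Nonempty := by
  refine ⟨⟨fun i => if i = 0 ∨ i = n + 1 then 3 else if 0 < i ∧ i < n + 1 then 2 else 0, ?_⟩, 0, ?_⟩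
  · intro m p R _
    have : ones (fun i : ℤ => if i = 0 ∨ i = n + 1 then 3 else if 0 < i ∧ i < n + 1 then 2 else 0)
        p R = 0 := by
      unfold ones
      rw [Finset.card_eq_zero, Finset.filter_eq_empty_iff]
      intro i _
      dsimp only
      split_ifs <;> decide
    rw [this]; omega
  · refine ⟨by simp, fun i hi => ?_, by simp⟩
    simp only [Finset.mem_Ioo, zero_add] at hi
    dsimp only
    rw [if_neg (by omega), if_pos (by omega)]

theorem shift_preimage_has (n : ℕ) : (shift : Sys → Sys) ⁻¹' (Has n) = Has n := by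
  ext x
  constructor
  · rintro ⟨p, hp⟩
    exact ⟨p + 1, (occ_translate x.1 1 n p).1 hp⟩
  · rintro ⟨p, hp⟩
    refine ⟨p - 1, (occ_translate x.1 1 n (p - 1)).2 ?_⟩
    rwa [sub_add_cancel]

/-- The points with a one at the origin. -/
def One : Set Sys := {x | x.1 0 = 1}

theorem isOpen_one : IsOpen One := (isOpen_coord 0 {1}).preimage continuous_subtype_val

theorem one_nonempty : One.Nonempty := by
  refine ⟨⟨fun _ => 1, fun n p R h => absurd h.1 (by simp)⟩, rfl⟩

/-- Number of ones among the first `k` symbols. -/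
theorem count_le {x : Sys} {n : ℕ} {p : ℤ} (h : Occ x.1 n p) (k : ℕ) :
    n * ((Finset.range k).filter (fun j : ℕ => x.1 (j : ℤ) = 1)).card ≤
      2 * k + (2 * p.natAbs + 1) := by
  have h1 : ((Finset.range k).filter (fun j : ℕ => x.1 (j : ℤ) = 1)).card ≤
      ones x.1 p (k + p.natAbs) := by
    unfold ones
    refine Finset.card_le_card_of_injOn (fun j => (j : ℤ)) ?_ ?_
    · intro j hj
      simp only [Finset.coe_filter, Finset.mem_range, mem_ofPred_eq, Finset.mem_Icc] at hj ⊢
      exact ⟨by omega, hj.2⟩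
    · intro i _ j _ hij
      simpa using hij
  calc _ ≤ n * ones x.1 p (k + p.natAbs) := Nat.mul_le_mul_left _ h1
    _ ≤ 2 * (k + p.natAbs) + 1 := x.2 n p _ h
    _ = _ := by ring

/-- The points with a one at the position `j`. -/
def OneAt (j : ℕ) : Set Sys := {x | x.1 (j : ℤ) = 1}

theorem isOpen_oneAt (j : ℕ) : IsOpen (OneAt j) :=
  (isOpen_coord j {1}).preimage continuous_subtype_val

theorem preimage_one (j : ℕ) : (shift : Sys → Sys)^[j] ⁻¹' One = OneAt j := by
  ext x
  change ((shift : Sys → Sys)^[j] x).1 0 = 1 ↔ x.1 (j : ℤ) = 1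
  rw [iterate_shift, zero_add]

theorem exists_null [MeasurableSpace Sys] [BorelSpace Sys] (μ : Measure Sys)
    [IsProbabilityMeasure μ] (hμ : Ergodic (shift : Sys → Sys) μ) :
    ∃ O : Set Sys, IsOpen O ∧ O.Nonempty ∧ μ O = 0 := by
  by_cases hn : ∃ n, μ (Has n) = 0
  · obtain ⟨n, hn⟩ := hn
    exact ⟨Has n, isOpen_has n, has_nonempty n, hn⟩
  push Not at hn
  refine ⟨One, isOpen_one, one_nonempty, ?_⟩
  have hall : ∀ n, ∀ᵐ x ∂μ, x ∈ Has n := by
    intro n
    rcases hμ.toPreErgodic.ae_mem_or_ae_notMem (isOpen_has n).measurableSet (shift_preimage_has n)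
      with h | h
    · exact h
    · exact absurd (measure_eq_zero_iff_ae_notMem.2 h) (hn n)
  have hall' : ∀ᵐ x ∂μ, ∀ n, x ∈ Has n := ae_all_iff.2 hall
  have hmeas : ∀ j : ℕ, MeasurableSet (OneAt j) := fun j => (isOpen_oneAt j).measurableSet
  have hmu : ∀ j : ℕ, μ.real (OneAt j) = μ.real One := by
    intro j
    rw [← preimage_one, measureReal_def, measureReal_def,
      (hμ.toMeasurePreserving.iterate j).measure_preimage isOpen_one.measurableSet.nullMeasurableSet]
  -- the averages
  obtain ⟨f, hf⟩ : ∃ f : ℕ → Sys → ℝ, f = fun k x =>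
    (∑ j ∈ Finset.range k, (OneAt j).indicator (1 : Sys → ℝ) x) / k := ⟨_, rfl⟩
  have hcount : ∀ k x, f k x =
      (((Finset.range k).filter (fun j : ℕ => x.1 (j : ℤ) = 1)).card : ℝ) / k := by
    intro k x
    classical
    rw [hf]
    change (∑ j ∈ Finset.range k, (OneAt j).indicator (1 : Sys → ℝ) x) / k = _
    congr 1
    rw [Finset.card_filter]
    push_cast
    refine Finset.sum_congr rfl fun j _ => ?_
    simp only [indicator, OneAt, Pi.one_apply]
    congr
  have hint : ∀ k : ℕ, 0 < k → ∫ x, f k x ∂μ = μ.real One := by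
    intro k hk
    simp only [hf]
    rw [integral_div, integral_finsetSum]
    · have : ∀ j ∈ Finset.range k, ∫ x, (OneAt j).indicator (1 : Sys → ℝ) x ∂μ = μ.real One := by
        intro j _
        rw [integral_indicator_one (hmeas j), hmu]
      rw [Finset.sum_congr rfl this]
      simp only [Finset.sum_const, Finset.card_range, nsmul_eq_mul]
      field_simp
    · intro j _
      exact (integrable_const (1 : ℝ)).indicator (hmeas j)
  have hlim : Tendsto (fun k => ∫ x, f k x ∂μ) atTop (𝓝 (∫ _, (0 : ℝ) ∂μ)) := by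
    refine tendsto_integral_of_dominated_convergence (fun _ => 1) ?_ (integrable_const _) ?_ ?_
    · intro k
      refine Measurable.aestronglyMeasurable ?_
      rw [hf]
      refine Measurable.div_const ?_ _
      refine Finset.measurable_fun_sum _ fun j _ => ?_
      exact measurable_const.indicator (hmeas j)
    · intro k
      refine Eventually.of_forall fun x => ?_
      rw [hcount, Real.norm_of_nonneg (by positivity)]
      rcases Nat.eq_zero_or_pos k with rfl | hk
      · simp
      · rw [div_le_one (by exact_mod_cast hk)]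
        have := Finset.card_filter_le (Finset.range k) (fun j : ℕ => x.1 (j : ℤ) = 1)
        rw [Finset.card_range] at this
        exact_mod_cast this
    · filter_upwards [hall'] with x hx
      rw [Metric.tendsto_atTop]
      intro ε hε
      obtain ⟨n, hn⟩ := exists_nat_gt (4 / ε)
      obtain ⟨p, hp⟩ := hx n
      have hnpos : (0 : ℝ) < n := lt_trans (by positivity) hn
      refine ⟨2 * p.natAbs + 2, fun k hk => ?_⟩
      rw [hcount, Real.dist_eq, sub_zero, abs_of_nonneg (by positivity)]
      have hkpos : (0 : ℝ) < k := by exact_mod_cast (by omega : 0 < k)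
      have h1 := count_le hp k
      set c := ((Finset.range k).filter (fun j : ℕ => x.1 (j : ℤ) = 1)).card
      rw [div_lt_iff₀ hkpos]
      have h2 : (n : ℝ) * c ≤ 3 * k := by
        have : n * c ≤ 3 * k := by omega
        exact_mod_cast this
      have h3 : 4 < n * ε := by
        rw [div_lt_iff₀ hε] at hn
        linarith
      by_contra hcon
      push Not at hcon
      nlinarith
  have hzero : μ.real One = 0 := by
    have h1 : Tendsto (fun k => ∫ x, f k x ∂μ) atTop (𝓝 (μ.real One)) := by
      refine tendsto_const_nhds.congr' ?_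
      filter_upwards [eventually_gt_atTop 0] with k hk
      exact (hint k hk).symm
    have := tendsto_nhds_unique h1 hlim
    simpa using this
  rwa [measureReal_eq_zero_iff] at hzero

instance : Nontrivial Sys := by
  refine ⟨⟨fun _ => 0, fun n p R h => absurd h.1 (by simp)⟩,
    ⟨fun _ => 1, fun n p R h => absurd h.1 (by simp)⟩, fun h => ?_⟩
  have h1 : (fun _ : ℤ => (0 : Fin 4)) = fun _ => 1 := congrArg Subtype.val h
  exact absurd (congrFun h1 0) (by decide)

end Pool.Agent.X183.Upe
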