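import Pool.Agent.X183.Upe.Defs

/-!
# The subshift: the longer the block `3 2 ⋯ 2 3`, the rarer the ones around it
-/

set_option autoImplicit false

open Set Filter Topology

namespace Pool.Agent.X183.Upe

/-- The word `3 2^n 3` occurs in `x` at the position `p`. -/
def Occ (x : ℤ → Fin 4) (n : ℕ) (p : ℤ) : Prop :=
  x p = 3 ∧ (∀ i ∈ Finset.Ioo p (p + n + 1), x i = 2) ∧ x (p + n + 1) = 3

/-- The number of ones of `x` in the window of radius `R` around `p`. -/
noncomputable def ones (x : ℤ → Fin 4) (p : ℤ) (R : ℕ) : ℕ :=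
  ((Finset.Icc (p - R) (p + R)).filter (fun i => x i = 1)).card

/-- The defining condition of the subshift. -/
def Good (x : ℤ → Fin 4) : Prop :=
  ∀ (n : ℕ) (p : ℤ) (R : ℕ), Occ x n p → n * ones x p R ≤ 2 * R + 1

/-- The subshift. -/
def Sys : Type := {x : ℤ → Fin 4 // Good x}

instance : TopologicalSpace Sys := instTopologicalSpaceSubtype

theorem isOpen_coord (i : ℤ) (S : Set (Fin 4)) : IsOpen {x : ℤ → Fin 4 | x i ∈ S} :=
  (isOpen_discrete S).preimage (continuous_apply i)

theorem isOpen_occ (n : ℕ) (p : ℤ) : IsOpen {x : ℤ → Fin 4 | Occ x n p} := by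
  have h : {x : ℤ → Fin 4 | Occ x n p} = {x | x p ∈ ({3} : Set (Fin 4))} ∩
      ((⋂ i ∈ Finset.Ioo p (p + n + 1), {x : ℤ → Fin 4 | x i ∈ ({2} : Set (Fin 4))}) ∩
      {x | x (p + n + 1) ∈ ({3} : Set (Fin 4))}) := by
    ext x
    simp [Occ]
  rw [h]
  exact (isOpen_coord _ _).inter ((isOpen_biInter_finset fun i _ => isOpen_coord _ _).inter
    (isOpen_coord _ _))

theorem isClosed_ones (p : ℤ) (R : ℕ) (n : ℕ) :
    IsClosed {x : ℤ → Fin 4 | n * ones x p R ≤ 2 * R + 1} := by
  have hc : Continuous (fun x : ℤ → Fin 4 => n * ones x p R) := by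
    have h : (fun x : ℤ → Fin 4 => n * ones x p R) =
        fun x => n * ∑ i ∈ Finset.Icc (p - R) (p + R), (fun a : Fin 4 => if a = 1 then 1 else 0) (x i) := by
      funext x
      simp only [ones, Finset.card_filter]
    rw [h]
    refine continuous_const.mul (continuous_finsetSum _ fun i _ => ?_)
    exact (continuous_of_discreteTopology (f := fun a : Fin 4 => if a = 1 then 1 else 0)).comp
      (continuous_apply i)
  exact isClosed_le hc continuous_const

theorem isClosed_good : IsClosed {x : ℤ → Fin 4 | Good x} := by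
  have h : {x : ℤ → Fin 4 | Good x} = ⋂ (n : ℕ), ⋂ (p : ℤ), ⋂ (R : ℕ),
      {x | Occ x n p → n * ones x p R ≤ 2 * R + 1} := by
    ext x
    simp [Good]
  rw [h]
  refine isClosed_iInter fun n => isClosed_iInter fun p => isClosed_iInter fun R => ?_
  exact isClosed_imp (isOpen_occ n p) (isClosed_ones p R n)

instance : CompactSpace Sys := isCompact_iff_compactSpace.1 isClosed_good.isCompact

instance : TopologicalSpace.MetrizableSpace Sys := by
  have : TopologicalSpace.MetrizableSpace (ℤ → Fin 4) :=
    TopologicalSpace.metrizableSpace_of_t3_secondCountable _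
  exact (Topology.IsEmbedding.subtypeVal (p := Good)).metrizableSpace

/-! ### The shift -/

theorem occ_translate (x : ℤ → Fin 4) (k : ℤ) (n : ℕ) (p : ℤ) :
    Occ (fun i => x (i + k)) n p ↔ Occ x n (p + k) := by
  unfold Occ
  constructor
  · rintro ⟨h1, h2, h3⟩
    refine ⟨h1, fun i hi => ?_, ?_⟩
    · have := h2 (i - k) (by simp only [Finset.mem_Ioo] at hi ⊢; omega)
      simpa using this
    · rw [← h3]
      change x _ = x _
      rw [show p + k + n + 1 = p + n + 1 + k by ring]
  · rintro ⟨h1, h2, h3⟩
    refine ⟨h1, fun i hi => ?_, ?_⟩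
    · exact h2 (i + k) (by simp only [Finset.mem_Ioo] at hi ⊢; omega)
    · rw [← h3]
      change x _ = x _
      rw [show p + k + n + 1 = p + n + 1 + k by ring]

theorem ones_translate (x : ℤ → Fin 4) (k : ℤ) (p : ℤ) (R : ℕ) :
    ones (fun i => x (i + k)) p R = ones x (p + k) R := by
  unfold ones
  refine Finset.card_bij (fun i _ => i + k) ?_ ?_ ?_
  · intro i hi
    simp only [Finset.mem_filter, Finset.mem_Icc] at hi ⊢
    exact ⟨by omega, hi.2⟩
  · intro i _ j _ h
    simpa using h
  · intro j hj
    simp only [Finset.mem_filter, Finset.mem_Icc] at hj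
    exact ⟨j - k, by simp only [Finset.mem_filter, Finset.mem_Icc]; exact ⟨by omega, by simpa using hj.2⟩,
      by simp⟩

theorem good_translate {x : ℤ → Fin 4} (hx : Good x) (k : ℤ) : Good (fun i => x (i + k)) := by
  intro n p R h
  rw [ones_translate]
  exact hx n (p + k) R ((occ_translate x k n p).1 h)

/-- Translation by `k`. -/
def trans (k : ℤ) (x : Sys) : Sys := ⟨fun i => x.1 (i + k), good_translate x.2 k⟩

theorem continuous_trans (k : ℤ) : Continuous (trans k) := by
  refine Continuous.subtype_mk ?_ _
  exact continuous_pi fun i => (continuous_apply (i + k)).comp continuous_subtype_val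

/-- The shift as a homeomorphism. -/
def shift : Sys ≃ₜ Sys where
  toFun := trans 1
  invFun := trans (-1)
  left_inv x := by
    apply Subtype.ext; funext i; simp [trans]
  right_inv x := by
    apply Subtype.ext; funext i; simp [trans]
  continuous_toFun := continuous_trans 1
  continuous_invFun := continuous_trans (-1)

theorem iterate_shift (n : ℕ) (x : Sys) (i : ℤ) : ((shift : Sys → Sys)^[n] x).1 i = x.1 (i + n) := by
  induction n generalizing x with
  | zero => simp
  | succ n ih =>
    rw [Function.iterate_succ_apply, ih]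
    change x.1 (i + n + 1) = _
    rw [show i + n + 1 = i + (n + 1 : ℕ) by push_cast; ring]

/-! ### Concatenations -/

/-- Blocks of radius `N`, the `k`-th one centred at `L k`, filled with the centre of `w k`, and
zeros elsewhere. -/
def concat (w : ℤ → ℤ → Fin 4) (N L : ℤ) (i : ℤ) : Fin 4 :=
  if (i + N) % L ≤ 2 * N then w ((i + N) / L) ((i + N) % L - N) else 0

theorem concat_block (w : ℤ → ℤ → Fin 4) {N L : ℤ} (hL : 2 * N < L) (k i : ℤ)
    (hi : -N ≤ i ∧ i ≤ N) : concat w N L (i + L * k) = w k i := by
  have h1 : (i + L * k + N) % L = i + N := by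
    rw [show i + L * k + N = (i + N) + L * k by ring, Int.add_mul_emod_self_left,
      Int.emod_eq_of_lt (by omega) (by omega)]
  have h2 : (i + L * k + N) / L = k := by
    rw [show i + L * k + N = (i + N) + L * k by ring,
      Int.add_mul_ediv_left _ _ (by omega), Int.ediv_eq_zero_of_lt (by omega) (by omega), zero_add]
  unfold concat
  rw [h1, h2, if_pos (by omega), show i + N - N = i by ring]

theorem exists_block {w : ℤ → ℤ → Fin 4} {N L i : ℤ} (hN : 0 ≤ N) (hL : 2 * N < L)
    (h : concat w N L i ≠ 0) : ∃ k : ℤ, -N ≤ i - L * k ∧ i - L * k ≤ N := by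
  unfold concat at h
  by_cases hc : (i + N) % L ≤ 2 * N
  · refine ⟨(i + N) / L, ?_⟩
    have h1 := Int.emod_nonneg (i + N) (show L ≠ 0 by omega)
    have h2 := Int.emod_add_mul_ediv (i + N) L
    omega
  · rw [if_neg hc] at h; exact absurd rfl h

/-- The number of ones of a concatenation in a window. -/
theorem ones_concat_le {w : ℤ → ℤ → Fin 4} {N L : ℕ} (hL : 2 * N < L) (p : ℤ) (R : ℕ) :
    ones (concat w N L) p R * L ≤ (2 * N + 1) * (2 * R + 2 * L) := by
  classical
  have hL0 : (0 : ℤ) < L := by exact_mod_cast (show 0 < L by omega)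
  set S := (Finset.Icc (p - R) (p + R)).filter (fun i => concat w N L i = 1) with hS
  have h1 : S.card ≤ (2 * N + 1) * (S.image fun i => (i + N) / (L : ℤ)).card := by
    refine Finset.card_le_mul_card_image S (2 * N + 1) ?_
    intro k hk
    have h2 : S.filter (fun i => (i + N) / (L : ℤ) = k) ⊆
        Finset.Icc ((L : ℤ) * k - N) (L * k + N) := by
      intro i hi
      simp only [hS, Finset.mem_filter, Finset.mem_Icc] at hi ⊢
      obtain ⟨⟨-, h3⟩, h4⟩ := hi
      unfold concat at h3
      by_cases hc : (i + N) % (L : ℤ) ≤ 2 * N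
      · have h5 := Int.emod_nonneg (i + N) (show (L : ℤ) ≠ 0 by omega)
        have h6 := Int.emod_add_mul_ediv (i + N) L
        rw [h4] at h6
        omega
      · rw [if_neg hc] at h3; exact absurd h3 (by decide)
    refine (Finset.card_le_card h2).trans ?_
    rw [Int.card_Icc]
    omega
  have h2 : (S.image fun i => (i + N) / (L : ℤ)) ⊆
      Finset.Icc ((p - R + N) / (L : ℤ)) ((p + R + N) / (L : ℤ)) := by
    intro k hk
    obtain ⟨i, hi, rfl⟩ := Finset.mem_image.1 hk
    simp only [hS, Finset.mem_filter, Finset.mem_Icc] at hi ⊢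
    exact ⟨Int.ediv_le_ediv hL0 (by omega), Int.ediv_le_ediv hL0 (by omega)⟩
  have h3 := Finset.card_le_card h2
  rw [Int.card_Icc] at h3
  have h4 : (((p + R + N) / (L : ℤ) + 1 - (p - R + N) / (L : ℤ)).toNat) * L ≤ 2 * R + 2 * L := by
    have h5 := Int.emod_add_mul_ediv (p + R + N) L
    have h6 := Int.emod_add_mul_ediv (p - R + N) L
    have h7 := Int.emod_nonneg (p + R + N) (show (L : ℤ) ≠ 0 by omega)
    have h8 := Int.emod_lt_of_pos (p - R + N) hL0
    set a := (p + R + N) / (L : ℤ)
    set b := (p - R + N) / (L : ℤ)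
    have h9 : (L : ℤ) * (a - b) < 2 * R + L := by
      have : (L : ℤ) * (a - b) = L * a - L * b := by ring
      omega
    by_cases hab : 0 ≤ a + 1 - b
    · zify
      rw [Int.toNat_of_nonneg hab]
      nlinarith
    · rw [Int.toNat_of_nonpos (by omega)]; omega
  change S.card * L ≤ _
  calc S.card * L ≤ ((2 * N + 1) * (S.image fun i => (i + N) / (L : ℤ)).card) * L :=
        Nat.mul_le_mul_right _ h1
    _ ≤ ((2 * N + 1) * ((p + R + N) / (L : ℤ) + 1 - (p - R + N) / (L : ℤ)).toNat) * L :=
        Nat.mul_le_mul_right _ (Nat.mul_le_mul_left _ h3)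
    _ = (2 * N + 1) * (((p + R + N) / (L : ℤ) + 1 - (p - R + N) / (L : ℤ)).toNat * L) := by ring
    _ ≤ (2 * N + 1) * (2 * R + 2 * L) := Nat.mul_le_mul_left _ h4

/-- An occurrence in a concatenation comes from an occurrence in one of the words. -/
theorem occ_concat {w : ℤ → ℤ → Fin 4} {N L : ℕ} (hL : 2 * N + 1 < L) {n : ℕ} {p : ℤ}
    (h : Occ (concat w N L) n p) :
    ∃ k : ℤ, Occ (w k) n (p - L * k) ∧ -(N : ℤ) ≤ p - L * k ∧ p - L * k ≤ N ∧ n + 1 ≤ 2 * N := by
  obtain ⟨h1, h2, h3⟩ := h
  have hne : ∀ j : ℕ, j ≤ n + 1 → concat w N L (p + j) ≠ 0 := by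
    intro j hj
    rcases Nat.eq_zero_or_pos j with rfl | hj0
    · simp only [Nat.cast_zero, add_zero, h1]; decide
    · rcases Nat.lt_or_ge j (n + 1) with hj1 | hj1
      · rw [h2 (p + j) (by simp only [Finset.mem_Ioo]; omega)]; decide
      · rw [show (p + (j : ℤ)) = p + n + 1 by omega, h3]; decide
  obtain ⟨k, hk1, hk2⟩ := exists_block (w := w) (N := N) (L := L) (by positivity)
    (by exact_mod_cast (show 2 * N < L by omega)) (i := p) (by simpa using hne 0 (by omega))
  have hblk : ∀ j : ℕ, j ≤ n + 1 → p + j - L * k ≤ N := by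
    intro j
    induction j with
    | zero => intro _; simpa using hk2
    | succ j ih =>
      intro hj
      have ihj := ih (by omega)
      obtain ⟨l, hl1, hl2⟩ := exists_block (w := w) (N := N) (L := L) (by positivity)
        (by exact_mod_cast (show 2 * N < L by omega)) (i := p + (j + 1 : ℕ)) (hne (j + 1) hj)
      have hlk : l = k := by
        have hLpos : (0 : ℤ) < L := by omega
        have e1 : (L : ℤ) * l - L * k < L := by push_cast at hl1 hl2; omega
        have e2 : -(L : ℤ) < L * l - L * k := by push_cast at hl1 hl2; omega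
        have e3 : (L : ℤ) * l - L * k = L * (l - k) := by ring
        rw [e3] at e1 e2
        have e4 : l - k < 1 := by
          by_contra hcon
          push Not at hcon
          nlinarith
        have e5 : -1 < l - k := by
          by_contra hcon
          push Not at hcon
          nlinarith
        omega
      rw [hlk] at hl2
      exact hl2
  have hval : ∀ i : ℤ, p ≤ i → i ≤ p + n + 1 → w k (i - L * k) = concat w N L i := by
    intro i hi1 hi2
    have := concat_block w (N := N) (L := L) (by omega) k (i - L * k) (by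
      have := hblk (i - p).toNat (by omega)
      omega)
    rw [← this, show i - L * k + L * k = i by ring]
  refine ⟨k, ⟨?_, ?_, ?_⟩, hk1, hk2, ?_⟩
  · rw [hval p le_rfl (by omega), h1]
  · intro i hi
    simp only [Finset.mem_Ioo] at hi
    have := hval (i + L * k) (by omega) (by omega)
    rw [show i + L * k - L * k = i by ring] at this
    rw [this]
    exact h2 _ (by simp only [Finset.mem_Ioo]; omega)
  · have := hval (p + n + 1) (by omega) (by omega)
    rw [show p - L * k + n + 1 = p + n + 1 - L * k by ring, this, h3]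
  · have := hblk (n + 1) le_rfl
    push_cast at this
    omega

theorem good_concat {w : ℤ → ℤ → Fin 4} (hw : ∀ k, Good (w k)) {N L : ℕ}
    (hL : 100 * (N + 1) ^ 2 ≤ L) : Good (concat w N L) := by
  intro n p R hocc
  have hL2 : 2 * N + 1 < L := by nlinarith
  obtain ⟨k, hk, hk1, hk2, hn⟩ := occ_concat hL2 hocc
  by_cases hR : (R : ℤ) < L - 2 * N
  · have hones : ones (concat w N L) p R ≤ ones (w k) (p - L * k) R := by
      unfold ones
      refine Finset.card_le_card_of_injOn (fun i => i - L * k) ?_ ?_
      · intro i hi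
        simp only [Finset.coe_filter, Finset.mem_Icc, mem_ofPred_eq] at hi ⊢
        obtain ⟨hi1, hi2⟩ := hi
        refine ⟨by omega, ?_⟩
        obtain ⟨l, hl1, hl2⟩ := exists_block (w := w) (N := N) (L := L) (by positivity)
          (by exact_mod_cast (show 2 * N < L by omega)) (i := i) (by rw [hi2]; decide)
        have hlk : l = k := by
          have hLpos : (0 : ℤ) < L := by omega
          have e1 : (L : ℤ) * l - L * k < L := by omega
          have e2 : -(L : ℤ) < L * l - L * k := by omega
          have e3 : (L : ℤ) * l - L * k = L * (l - k) := by ring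
          rw [e3] at e1 e2
          have e4 : l - k < 1 := by
            by_contra hcon
            push Not at hcon
            nlinarith
          have e5 : -1 < l - k := by
            by_contra hcon
            push Not at hcon
            nlinarith
          omega
        subst hlk
        have := concat_block w (N := N) (L := L) (by omega) l (i - L * l) ⟨hl1, hl2⟩
        rw [show i - L * l + L * l = i by ring, hi2] at this
        exact this.symm
      · intro i _ j _ h
        simpa using h
    calc n * ones (concat w N L) p R ≤ n * ones (w k) (p - L * k) R := Nat.mul_le_mul_left _ hones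
      _ ≤ 2 * R + 1 := hw k n _ R hk
  · have h1 := ones_concat_le (w := w) (N := N) (L := L) (by omega) p R
    have hR' : L ≤ R + 2 * N := by omega
    have hR2 : L ≤ 2 * R := by nlinarith
    have h2 : (2 * N + 1) * (2 * R + 2 * L) ≤ (2 * N + 1) * (6 * R) :=
      Nat.mul_le_mul_left _ (by omega)
    have h3 : n * ones (concat w N L) p R * L ≤ (2 * R + 1) * L := by
      calc n * ones (concat w N L) p R * L = n * (ones (concat w N L) p R * L) := by ring
        _ ≤ (2 * N) * ((2 * N + 1) * (6 * R)) := Nat.mul_le_mul (by omega) (h1.trans h2)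
        _ ≤ (2 * R + 1) * L := by nlinarith
    exact Nat.le_of_mul_le_mul_right h3 (by omega)

end Pool.Agent.X183.Upe
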